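import Mathlib
import Pool.Agent.K1H58.PC.Three
set_option autoImplicit false
/-!
# MP_999027_co : piercing the `n × n` chessboard by lines few of which have negative slope
-/
namespace Pool.Agent.Results.MP_999027_co.FewNegativeSlopes
open Pool.Agent.K1H58.PC

/-- A line `{(x, y) : A x + B y = C}` in the plane. -/
structure Line where
  A : ℝ
  B : ℝ
  C : ℝ
  nz : A ≠ 0 ∨ B ≠ 0

/-- The line `l` pierces the cell in column `i` and row `j` (`0 ≤ i, j < n`) of the `n × n`
chessboard placed in `[-1, 1]²`: it meets the interior of the cell. -/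
def Pierces (n : ℕ) (l : Line) (i j : Fin n) : Prop :=
  ∃ x y : ℝ, -1 + 2 * (i : ℝ) / n < x ∧ x < -1 + 2 * ((i : ℝ) + 1) / n ∧
    -1 + 2 * (j : ℝ) / n < y ∧ y < -1 + 2 * ((j : ℝ) + 1) / n ∧ l.A * x + l.B * y = l.C

/-- The four closed octants of directions of lines:
`0`: slope in `[-1, 0]`; `1`: slope `≤ -1` or vertical; `2`: slope in `[0, 1]`;
`3`: slope `≥ 1` or vertical. -/
def InOctant (k : Fin 4) (l : Line) : Prop :=
  match k with
  | 0 => 0 ≤ l.A * l.B ∧ |l.A| ≤ |l.B|
  | 1 => 0 ≤ l.A * l.B ∧ |l.B| ≤ |l.A|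
  | 2 => l.A * l.B ≤ 0 ∧ |l.A| ≤ |l.B|
  | 3 => l.A * l.B ≤ 0 ∧ |l.B| ≤ |l.A|

/-- the constant of a line in the coordinates in which the board is `[0, n]²` -/
noncomputable def cst (n : ℕ) (l : Line) : ℝ := (l.C + l.A + l.B) * n / 2

lemma pierces_iff {n : ℕ} (l : Line) (i j : Fin n) (h : Pierces n l i j) :
    ∃ u v : ℝ, (i : ℝ) < u ∧ u < i + 1 ∧ (j : ℝ) < v ∧ v < j + 1 ∧ l.A * u + l.B * v = cst n l := by
  obtain ⟨x, y, h1, h2, h3, h4, h5⟩ := h
  have hn : (0 : ℝ) < n := by
    have : 0 < n := i.pos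
    exact_mod_cast this
  refine ⟨(x + 1) * n / 2, (y + 1) * n / 2, ?_, ?_, ?_, ?_, ?_⟩
  · have : 2 * (i : ℝ) / n < x + 1 := by linarith
    rw [div_lt_iff₀ hn] at this
    linarith
  · have : x + 1 < 2 * ((i : ℝ) + 1) / n := by linarith
    rw [lt_div_iff₀ hn] at this
    linarith
  · have : 2 * (j : ℝ) / n < y + 1 := by linarith
    rw [div_lt_iff₀ hn] at this
    linarith
  · have : y + 1 < 2 * ((j : ℝ) + 1) / n := by linarith
    rw [lt_div_iff₀ hn] at this
    linarith
  · unfold cst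
    rw [← h5]
    ring

lemma B_ne {l : Line} (h : |l.A| ≤ |l.B|) : l.B ≠ 0 := by
  intro h0
  rw [h0, abs_zero] at h
  have hA : l.A = 0 := abs_eq_zero.1 (le_antisymm h (abs_nonneg _))
  rcases l.nz with h' | h'
  · exact h' hA
  · exact h' h0

lemma A_ne {l : Line} (h : |l.B| ≤ |l.A|) : l.A ≠ 0 := by
  intro h0
  rw [h0, abs_zero] at h
  have hA : l.B = 0 := abs_eq_zero.1 (le_antisymm h (abs_nonneg _))
  rcases l.nz with h' | h'
  · exact h' h0
  · exact h' hA

lemma ratio_le {a b : ℝ} (hb : b ≠ 0) (h : |a| ≤ |b|) : |a / b| ≤ 1 := by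
  rw [abs_div]
  exact div_le_one_of_le₀ h (abs_nonneg b)

lemma ratio_nonneg {a b : ℝ} (hb : b ≠ 0) (h : 0 ≤ a * b) : 0 ≤ a / b := by
  have : a / b = (a * b) / (b * b) := by field_simp
  rw [this]
  exact div_nonneg h (mul_self_nonneg b)

lemma ratio_nonpos {a b : ℝ} (hb : b ≠ 0) (h : a * b ≤ 0) : 0 ≤ -(a / b) := by
  have : -(a / b) = (-(a * b)) / (b * b) := by field_simp
  rw [this]
  exact div_nonneg (by linarith) (mul_self_nonneg b)

/-- shallow, nonpositive slope -/
lemma cell0 {n : ℕ} {l : Line} (h : InOctant 0 l) (i j : Fin n) (hp : Pierces n l i j) :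
    (j : ℝ) + l.A / l.B * i < cst n l / l.B ∧ cst n l / l.B < (j : ℝ) + 1 + l.A / l.B * (i + 1) := by
  obtain ⟨u, v, h1, h2, h3, h4, h5⟩ := pierces_iff l i j hp
  have hB := B_ne h.2
  have hs := ratio_nonneg hB h.1
  have e : cst n l / l.B = v + l.A / l.B * u := by
    rw [← h5]; field_simp; ring
  rw [e]
  constructor <;> nlinarith

/-- steep, nonpositive slope -/
lemma cell1 {n : ℕ} {l : Line} (h : InOctant 1 l) (i j : Fin n) (hp : Pierces n l i j) :
    (i : ℝ) + l.B / l.A * j < cst n l / l.A ∧ cst n l / l.A < (i : ℝ) + 1 + l.B / l.A * (j + 1) := by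
  obtain ⟨u, v, h1, h2, h3, h4, h5⟩ := pierces_iff l i j hp
  have hA := A_ne h.2
  have hs := ratio_nonneg hA (by have := h.1; rw [mul_comm] at this; exact this)
  have e : cst n l / l.A = u + l.B / l.A * v := by
    rw [← h5]; field_simp
  rw [e]
  constructor <;> nlinarith

/-- shallow, nonnegative slope -/
lemma cell2 {n : ℕ} {l : Line} (h : InOctant 2 l) (i j : Fin n) (hp : Pierces n l i j) :
    (j : ℝ) - -(l.A / l.B) * (i + 1) < cst n l / l.B ∧
      cst n l / l.B < (j : ℝ) + 1 - -(l.A / l.B) * i := by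
  obtain ⟨u, v, h1, h2, h3, h4, h5⟩ := pierces_iff l i j hp
  have hB := B_ne h.2
  have hs := ratio_nonpos hB h.1
  have e : cst n l / l.B = v - -(l.A / l.B) * u := by
    rw [← h5]; field_simp; ring
  rw [e]
  constructor <;> nlinarith

/-- steep, nonnegative slope -/
lemma cell3 {n : ℕ} {l : Line} (h : InOctant 3 l) (i j : Fin n) (hp : Pierces n l i j) :
    (i : ℝ) - -(l.B / l.A) * (j + 1) < cst n l / l.A ∧
      cst n l / l.A < (i : ℝ) + 1 - -(l.B / l.A) * j := by
  obtain ⟨u, v, h1, h2, h3, h4, h5⟩ := pierces_iff l i j hp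
  have hA := A_ne h.2
  have hs := ratio_nonpos hA (by have := h.1; rw [mul_comm] at this; exact this)
  have e : cst n l / l.A = u - -(l.B / l.A) * v := by
    rw [← h5]; field_simp; ring
  rw [e]
  constructor <;> nlinarith


section
variable {n m : ℕ} (hn : 0 < n) (l : Fin m → Line) (hcov : ∀ i j : Fin n, ∃ k, Pierces n (l k) i j)
include hn hcov

open Classical in
lemma case_shallow (h : ∀ k, 0 < (l k).A * (l k).B → |(l k).A| ≤ |(l k).B|) :
    n ≤ m + (Finset.univ.filter (fun k => 0 < (l k).A * (l k).B)).card := by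
  set S := Finset.univ.filter (fun k => 0 < (l k).A * (l k).B) with hS
  set T := Finset.univ.filter (fun k => ¬ 0 < (l k).A * (l k).B) with hT
  have hST : S.card + T.card = m := by
    have := Finset.card_filter_add_card_filter_not (s := (Finset.univ : Finset (Fin m)))
      (fun k => 0 < (l k).A * (l k).B)
    rw [Finset.card_univ, Fintype.card_fin] at this
    exact this
  have hQR := Finset.card_filter_add_card_filter_not (s := T)
    (fun k => |(l k).A| ≤ |(l k).B|)
  have o0 : ∀ k ∈ S, InOctant 0 (l k) := fun k hk =>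
    ⟨(Finset.mem_filter.1 hk).2.le, h k (Finset.mem_filter.1 hk).2⟩
  have o2 : ∀ k ∈ T.filter (fun k => |(l k).A| ≤ |(l k).B|), InOctant 2 (l k) := fun k hk =>
    ⟨not_lt.1 (Finset.mem_filter.1 (Finset.mem_filter.1 hk).1).2, (Finset.mem_filter.1 hk).2⟩
  have o3 : ∀ k ∈ T.filter (fun k => ¬ |(l k).A| ≤ |(l k).B|), InOctant 3 (l k) := fun k hk =>
    ⟨not_lt.1 (Finset.mem_filter.1 (Finset.mem_filter.1 hk).1).2,
      (not_le.1 (Finset.mem_filter.1 hk).2).le⟩
  have key := core_three (n : ℤ) (by exact_mod_cast hn) S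
    (T.filter (fun k => |(l k).A| ≤ |(l k).B|)) (T.filter (fun k => ¬ |(l k).A| ≤ |(l k).B|))
    (fun k => (l k).A / (l k).B) (fun k => cst n (l k) / (l k).B)
    (fun k => -((l k).A / (l k).B)) (fun k => cst n (l k) / (l k).B)
    (fun k => -((l k).B / (l k).A)) (fun k => cst n (l k) / (l k).A)
    (fun k hk => ratio_nonneg (B_ne (o0 k hk).2) (o0 k hk).1)
    (fun k hk => (le_abs_self _).trans (ratio_le (B_ne (o0 k hk).2) (o0 k hk).2))
    (fun k hk => ratio_nonpos (B_ne (o2 k hk).2) (o2 k hk).1)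
    (fun k hk => (neg_le_abs _).trans (ratio_le (B_ne (o2 k hk).2) (o2 k hk).2))
    (fun k hk => ratio_nonpos (A_ne (o3 k hk).2)
      (by have := (o3 k hk).1; rw [mul_comm] at this; exact this))
    (fun k hk => (neg_le_abs _).trans (ratio_le (A_ne (o3 k hk).2) (o3 k hk).2))
    (by
      intro x y hx hx' hy hy'
      obtain ⟨i, rfl⟩ := Int.eq_ofNat_of_zero_le hx
      obtain ⟨j, rfl⟩ := Int.eq_ofNat_of_zero_le hy
      obtain ⟨k, hk⟩ := hcov ⟨i, by exact_mod_cast hx'⟩ ⟨j, by exact_mod_cast hy'⟩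
      by_cases h0 : 0 < (l k).A * (l k).B
      · left
        have hkS : k ∈ S := Finset.mem_filter.2 ⟨Finset.mem_univ _, h0⟩
        exact ⟨k, hkS, by simpa using cell0 (o0 k hkS) _ _ hk⟩
      · right
        have hkT : k ∈ T := Finset.mem_filter.2 ⟨Finset.mem_univ _, h0⟩
        by_cases h1 : |(l k).A| ≤ |(l k).B|
        · left
          have hk2 : k ∈ T.filter (fun k => |(l k).A| ≤ |(l k).B|) :=
            Finset.mem_filter.2 ⟨hkT, h1⟩
          exact ⟨k, hk2, by simpa using cell2 (o2 k hk2) _ _ hk⟩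
        · right
          have hk3 : k ∈ T.filter (fun k => ¬ |(l k).A| ≤ |(l k).B|) :=
            Finset.mem_filter.2 ⟨hkT, h1⟩
          exact ⟨k, hk3, by simpa using cell3 (o3 k hk3) _ _ hk⟩)
  omega

open Classical in
lemma case_steep (h : ∀ k, 0 < (l k).A * (l k).B → |(l k).B| ≤ |(l k).A|) :
    n ≤ m + (Finset.univ.filter (fun k => 0 < (l k).A * (l k).B)).card := by
  set S := Finset.univ.filter (fun k => 0 < (l k).A * (l k).B) with hS
  set T := Finset.univ.filter (fun k => ¬ 0 < (l k).A * (l k).B) with hT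
  have hST : S.card + T.card = m := by
    have := Finset.card_filter_add_card_filter_not (s := (Finset.univ : Finset (Fin m)))
      (fun k => 0 < (l k).A * (l k).B)
    rw [Finset.card_univ, Fintype.card_fin] at this
    exact this
  have hQR := Finset.card_filter_add_card_filter_not (s := T)
    (fun k => |(l k).B| ≤ |(l k).A|)
  have o1 : ∀ k ∈ S, InOctant 1 (l k) := fun k hk =>
    ⟨(Finset.mem_filter.1 hk).2.le, h k (Finset.mem_filter.1 hk).2⟩
  have o3 : ∀ k ∈ T.filter (fun k => |(l k).B| ≤ |(l k).A|), InOctant 3 (l k) := fun k hk =>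
    ⟨not_lt.1 (Finset.mem_filter.1 (Finset.mem_filter.1 hk).1).2, (Finset.mem_filter.1 hk).2⟩
  have o2 : ∀ k ∈ T.filter (fun k => ¬ |(l k).B| ≤ |(l k).A|), InOctant 2 (l k) := fun k hk =>
    ⟨not_lt.1 (Finset.mem_filter.1 (Finset.mem_filter.1 hk).1).2,
      (not_le.1 (Finset.mem_filter.1 hk).2).le⟩
  have key := core_three (n : ℤ) (by exact_mod_cast hn) S
    (T.filter (fun k => |(l k).B| ≤ |(l k).A|)) (T.filter (fun k => ¬ |(l k).B| ≤ |(l k).A|))
    (fun k => (l k).B / (l k).A) (fun k => cst n (l k) / (l k).A)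
    (fun k => -((l k).B / (l k).A)) (fun k => cst n (l k) / (l k).A)
    (fun k => -((l k).A / (l k).B)) (fun k => cst n (l k) / (l k).B)
    (fun k hk => ratio_nonneg (A_ne (o1 k hk).2)
      (by have := (o1 k hk).1; rw [mul_comm] at this; exact this))
    (fun k hk => (le_abs_self _).trans (ratio_le (A_ne (o1 k hk).2) (o1 k hk).2))
    (fun k hk => ratio_nonpos (A_ne (o3 k hk).2)
      (by have := (o3 k hk).1; rw [mul_comm] at this; exact this))
    (fun k hk => (neg_le_abs _).trans (ratio_le (A_ne (o3 k hk).2) (o3 k hk).2))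
    (fun k hk => ratio_nonpos (B_ne (o2 k hk).2) (o2 k hk).1)
    (fun k hk => (neg_le_abs _).trans (ratio_le (B_ne (o2 k hk).2) (o2 k hk).2))
    (by
      intro y x hy hy' hx hx'
      obtain ⟨i, rfl⟩ := Int.eq_ofNat_of_zero_le hx
      obtain ⟨j, rfl⟩ := Int.eq_ofNat_of_zero_le hy
      obtain ⟨k, hk⟩ := hcov ⟨i, by exact_mod_cast hx'⟩ ⟨j, by exact_mod_cast hy'⟩
      by_cases h0 : 0 < (l k).A * (l k).B
      · left
        have hkS : k ∈ S := Finset.mem_filter.2 ⟨Finset.mem_univ _, h0⟩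
        exact ⟨k, hkS, by simpa using cell1 (o1 k hkS) _ _ hk⟩
      · right
        have hkT : k ∈ T := Finset.mem_filter.2 ⟨Finset.mem_univ _, h0⟩
        by_cases h1 : |(l k).B| ≤ |(l k).A|
        · left
          have hk3 : k ∈ T.filter (fun k => |(l k).B| ≤ |(l k).A|) :=
            Finset.mem_filter.2 ⟨hkT, h1⟩
          exact ⟨k, hk3, by simpa using cell3 (o3 k hk3) _ _ hk⟩
        · right
          have hk2 : k ∈ T.filter (fun k => ¬ |(l k).B| ≤ |(l k).A|) :=
            Finset.mem_filter.2 ⟨hkT, h1⟩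
          exact ⟨k, hk2, by simpa using cell2 (o2 k hk2) _ _ hk⟩)
  omega

end

open Classical in
/-- If `m` lines pierce all cells of the `n × n` board and the lines of negative slope are all
shallow (slope in `[-1, 0)`) or all steep (slope `≤ -1`), then `n ≤ m + s`, where `s` is the number
of lines of negative slope. In particular `m ≥ n - 1` if at most one line has negative slope. -/
theorem result (n m : ℕ) (hn : 1 ≤ n) (l : Fin m → Line)
    (hneg : (∀ k, 0 < (l k).A * (l k).B → |(l k).A| ≤ |(l k).B|) ∨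
      (∀ k, 0 < (l k).A * (l k).B → |(l k).B| ≤ |(l k).A|))
    (hcov : ∀ i j : Fin n, ∃ k, Pierces n (l k) i j) :
    n ≤ m + (Finset.univ.filter (fun k => 0 < (l k).A * (l k).B)).card := by
  rcases hneg with h | h
  · exact case_shallow hn l hcov h
  · exact case_steep hn l hcov h

end Pool.Agent.Results.MP_999027_co.FewNegativeSlopes
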