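import Mathlib
import Pool.Agent.K1H58.PC.Shallow
set_option autoImplicit false
/-!
# MP_999027_co : piercing the `n × n` chessboard by lines whose directions lie in two octants
-/
namespace Pool.Agent.Results.MP_999027_co.TwoOctants
open Pool.Agent.K1H58.PC

/-- A line `{(x, y) : A x + B y = C}` in the plane. -/
structure Line where
  A : ℝ
  B : ℝ
  C : ℝ
  nz : A ≠ 0 ∨ B ≠ 0

/-- The line `l` pierces the cell in column `i` and row `j` (`0 ≤ i, j < n`) of the `n × n`
chessboard placed in `[-1, 1]²`: it meets the interior of the cell. -/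
def Pierces (n : ℕ) (l : Line) (i j : Fin n) : Prop :=
  ∃ x y : ℝ, -1 + 2 * (i : ℝ) / n < x ∧ x < -1 + 2 * ((i : ℝ) + 1) / n ∧
    -1 + 2 * (j : ℝ) / n < y ∧ y < -1 + 2 * ((j : ℝ) + 1) / n ∧ l.A * x + l.B * y = l.C

/-- The four closed octants of directions of lines:
`0`: slope in `[-1, 0]`; `1`: slope `≤ -1` or vertical; `2`: slope in `[0, 1]`;
`3`: slope `≥ 1` or vertical. -/
def InOctant (k : Fin 4) (l : Line) : Prop :=
  match k with
  | 0 => 0 ≤ l.A * l.B ∧ |l.A| ≤ |l.B|
  | 1 => 0 ≤ l.A * l.B ∧ |l.B| ≤ |l.A|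
  | 2 => l.A * l.B ≤ 0 ∧ |l.A| ≤ |l.B|
  | 3 => l.A * l.B ≤ 0 ∧ |l.B| ≤ |l.A|

/-- the constant of a line in the coordinates in which the board is `[0, n]²` -/
noncomputable def cst (n : ℕ) (l : Line) : ℝ := (l.C + l.A + l.B) * n / 2

lemma pierces_iff {n : ℕ} (l : Line) (i j : Fin n) (h : Pierces n l i j) :
    ∃ u v : ℝ, (i : ℝ) < u ∧ u < i + 1 ∧ (j : ℝ) < v ∧ v < j + 1 ∧ l.A * u + l.B * v = cst n l := by
  obtain ⟨x, y, h1, h2, h3, h4, h5⟩ := h
  have hn : (0 : ℝ) < n := by
    have : 0 < n := i.pos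
    exact_mod_cast this
  refine ⟨(x + 1) * n / 2, (y + 1) * n / 2, ?_, ?_, ?_, ?_, ?_⟩
  · have : 2 * (i : ℝ) / n < x + 1 := by linarith
    rw [div_lt_iff₀ hn] at this
    linarith
  · have : x + 1 < 2 * ((i : ℝ) + 1) / n := by linarith
    rw [lt_div_iff₀ hn] at this
    linarith
  · have : 2 * (j : ℝ) / n < y + 1 := by linarith
    rw [div_lt_iff₀ hn] at this
    linarith
  · have : y + 1 < 2 * ((j : ℝ) + 1) / n := by linarith
    rw [lt_div_iff₀ hn] at this
    linarith
  · unfold cst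
    rw [← h5]
    ring

lemma B_ne {l : Line} (h : |l.A| ≤ |l.B|) : l.B ≠ 0 := by
  intro h0
  rw [h0, abs_zero] at h
  have hA : l.A = 0 := abs_eq_zero.1 (le_antisymm h (abs_nonneg _))
  rcases l.nz with h' | h'
  · exact h' hA
  · exact h' h0

lemma A_ne {l : Line} (h : |l.B| ≤ |l.A|) : l.A ≠ 0 := by
  intro h0
  rw [h0, abs_zero] at h
  have hA : l.B = 0 := abs_eq_zero.1 (le_antisymm h (abs_nonneg _))
  rcases l.nz with h' | h'
  · exact h' h0
  · exact h' hA

lemma ratio_le {a b : ℝ} (hb : b ≠ 0) (h : |a| ≤ |b|) : |a / b| ≤ 1 := by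
  rw [abs_div]
  exact div_le_one_of_le₀ h (abs_nonneg b)

lemma ratio_nonneg {a b : ℝ} (hb : b ≠ 0) (h : 0 ≤ a * b) : 0 ≤ a / b := by
  have : a / b = (a * b) / (b * b) := by field_simp
  rw [this]
  exact div_nonneg h (mul_self_nonneg b)

lemma ratio_nonpos {a b : ℝ} (hb : b ≠ 0) (h : a * b ≤ 0) : 0 ≤ -(a / b) := by
  have : -(a / b) = (-(a * b)) / (b * b) := by field_simp
  rw [this]
  exact div_nonneg (by linarith) (mul_self_nonneg b)

/-- shallow, nonpositive slope -/
lemma cell0 {n : ℕ} {l : Line} (h : InOctant 0 l) (i j : Fin n) (hp : Pierces n l i j) :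
    (j : ℝ) + l.A / l.B * i < cst n l / l.B ∧ cst n l / l.B < (j : ℝ) + 1 + l.A / l.B * (i + 1) := by
  obtain ⟨u, v, h1, h2, h3, h4, h5⟩ := pierces_iff l i j hp
  have hB := B_ne h.2
  have hs := ratio_nonneg hB h.1
  have e : cst n l / l.B = v + l.A / l.B * u := by
    rw [← h5]; field_simp; ring
  rw [e]
  constructor <;> nlinarith

/-- steep, nonpositive slope -/
lemma cell1 {n : ℕ} {l : Line} (h : InOctant 1 l) (i j : Fin n) (hp : Pierces n l i j) :
    (i : ℝ) + l.B / l.A * j < cst n l / l.A ∧ cst n l / l.A < (i : ℝ) + 1 + l.B / l.A * (j + 1) := by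
  obtain ⟨u, v, h1, h2, h3, h4, h5⟩ := pierces_iff l i j hp
  have hA := A_ne h.2
  have hs := ratio_nonneg hA (by have := h.1; rw [mul_comm] at this; exact this)
  have e : cst n l / l.A = u + l.B / l.A * v := by
    rw [← h5]; field_simp
  rw [e]
  constructor <;> nlinarith

/-- shallow, nonnegative slope -/
lemma cell2 {n : ℕ} {l : Line} (h : InOctant 2 l) (i j : Fin n) (hp : Pierces n l i j) :
    (j : ℝ) - -(l.A / l.B) * (i + 1) < cst n l / l.B ∧
      cst n l / l.B < (j : ℝ) + 1 - -(l.A / l.B) * i := by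
  obtain ⟨u, v, h1, h2, h3, h4, h5⟩ := pierces_iff l i j hp
  have hB := B_ne h.2
  have hs := ratio_nonpos hB h.1
  have e : cst n l / l.B = v - -(l.A / l.B) * u := by
    rw [← h5]; field_simp; ring
  rw [e]
  constructor <;> nlinarith

/-- steep, nonnegative slope -/
lemma cell3 {n : ℕ} {l : Line} (h : InOctant 3 l) (i j : Fin n) (hp : Pierces n l i j) :
    (i : ℝ) - -(l.B / l.A) * (j + 1) < cst n l / l.A ∧
      cst n l / l.A < (i : ℝ) + 1 - -(l.B / l.A) * j := by
  obtain ⟨u, v, h1, h2, h3, h4, h5⟩ := pierces_iff l i j hp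
  have hA := A_ne h.2
  have hs := ratio_nonpos hA (by have := h.1; rw [mul_comm] at this; exact this)
  have e : cst n l / l.A = u - -(l.B / l.A) * v := by
    rw [← h5]; field_simp; ring
  rw [e]
  constructor <;> nlinarith

section
variable {n m : ℕ} (hn : 0 < n) (l : Fin m → Line) (hcov : ∀ i j : Fin n, ∃ k, Pierces n (l k) i j)
include hn hcov

/-- all lines have nonpositive slope or are vertical: even `n ≤ m` -/
lemma neg_case (h : ∀ k, 0 ≤ (l k).A * (l k).B) : n ≤ m := by
  classical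
  choose f hf using fun i : Fin n => hcov i i
  have hinj : Function.Injective f := by
    intro i j hij
    by_contra hne
    wlog hlt : i < j generalizing i j
    · exact this hij.symm (Ne.symm hne) (lt_of_le_of_ne (not_lt.1 hlt) (Ne.symm hne))
    obtain ⟨u, v, h1, h2, h3, h4, h5⟩ := pierces_iff _ _ _ (hf i)
    obtain ⟨u', v', h1', h2', h3', h4', h5'⟩ := pierces_iff _ _ _ (hf j)
    rw [← hij] at h5'
    have hij' : (i : ℝ) + 1 ≤ j := by
      have : (i : ℕ) + 1 ≤ j := hlt
      exact_mod_cast this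
    have du : 0 < u' - u := by linarith
    have dv : 0 < v' - v := by linarith
    have e : (l (f i)).A * (u' - u) + (l (f i)).B * (v' - v) = 0 := by linarith
    have hs := h (f i)
    have hnz := (l (f i)).nz
    set A := (l (f i)).A
    set B := (l (f i)).B
    rcases lt_trichotomy A 0 with hA | hA | hA
    · have hB : B ≤ 0 := by
        by_contra hc
        push Not at hc
        nlinarith [mul_pos (neg_pos.2 hA) hc]
      nlinarith [mul_pos (neg_pos.2 hA) du, mul_nonneg (neg_nonneg.2 hB) dv.le]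
    · have hB : B ≠ 0 := by
        rcases hnz with h' | h'
        · exact absurd hA h'
        · exact h'
      rw [hA, zero_mul, zero_add] at e
      rcases mul_eq_zero.1 e with h' | h'
      · exact hB h'
      · linarith
    · have hB : 0 ≤ B := by
        by_contra hc
        push Not at hc
        nlinarith [mul_pos hA (neg_pos.2 hc)]
      nlinarith [mul_pos hA du, mul_nonneg hB dv.le]
  have := Fintype.card_le_of_injective f hinj
  simpa using this

/-- all lines have nonnegative slope or are vertical: even `n ≤ m` -/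
lemma pos_case (h : ∀ k, (l k).A * (l k).B ≤ 0) : n ≤ m := by
  classical
  choose f hf using fun i : Fin n => hcov i i.rev
  have hinj : Function.Injective f := by
    intro i j hij
    by_contra hne
    wlog hlt : i < j generalizing i j
    · exact this hij.symm (Ne.symm hne) (lt_of_le_of_ne (not_lt.1 hlt) (Ne.symm hne))
    obtain ⟨u, v, h1, h2, h3, h4, h5⟩ := pierces_iff _ _ _ (hf i)
    obtain ⟨u', v', h1', h2', h3', h4', h5'⟩ := pierces_iff _ _ _ (hf j)
    rw [← hij] at h5'
    have hij' : (i : ℝ) + 1 ≤ j := by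
      have : (i : ℕ) + 1 ≤ j := hlt
      exact_mod_cast this
    have hij'' : ((j.rev : ℕ) : ℝ) + 1 ≤ ((i.rev : ℕ) : ℝ) := by
      have : (j.rev : ℕ) + 1 ≤ i.rev := Fin.rev_lt_rev.2 hlt
      exact_mod_cast this
    have du : 0 < u' - u := by linarith
    have dv : 0 < v - v' := by linarith
    have e : (l (f i)).A * (u' - u) = (l (f i)).B * (v - v') := by linarith
    have hs := h (f i)
    have hnz := (l (f i)).nz
    set A := (l (f i)).A
    set B := (l (f i)).B
    rcases lt_trichotomy A 0 with hA | hA | hA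
    · have hB : 0 ≤ B := by
        by_contra hc
        push Not at hc
        nlinarith [mul_pos (neg_pos.2 hA) (neg_pos.2 hc)]
      nlinarith [mul_pos (neg_pos.2 hA) du, mul_nonneg hB dv.le]
    · have hB : B ≠ 0 := by
        rcases hnz with h' | h'
        · exact absurd hA h'
        · exact h'
      rw [hA, zero_mul] at e
      rcases mul_eq_zero.1 e.symm with h' | h'
      · exact hB h'
      · linarith
    · have hB : B ≤ 0 := by
        by_contra hc
        push Not at hc
        nlinarith [mul_pos hA hc]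
      nlinarith [mul_pos hA du, mul_nonneg (neg_nonneg.2 hB) dv.le]
  have := Fintype.card_le_of_injective f hinj
  simpa using this

lemma split_card (p : Fin m → Prop) [DecidablePred p] :
    (((Finset.univ.filter p).card : ℕ) : ℤ) + ((Finset.univ.filter (fun k => ¬ p k)).card : ℕ) = m := by
  have := Finset.card_filter_add_card_filter_not (s := (Finset.univ : Finset (Fin m))) p
  rw [Finset.card_univ, Fintype.card_fin] at this
  exact_mod_cast this

/-- octants `0` and `3` -/
lemma case03 (h : ∀ k, InOctant 0 (l k) ∨ InOctant 3 (l k)) : (n : ℤ) - 1 ≤ m := by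
  classical
  rw [← split_card hn l hcov (fun k => InOctant 0 (l k))]
  have h3 : ∀ k, ¬ InOctant 0 (l k) → InOctant 3 (l k) := fun k hk => (h k).resolve_left hk
  refine core_perp (n : ℤ) (by exact_mod_cast hn) _ _ (fun k => (l k).A / (l k).B)
    (fun k => cst n (l k) / (l k).B) (fun k => -((l k).B / (l k).A))
    (fun k => cst n (l k) / (l k).A) ?_ ?_ ?_ ?_ ?_
  · intro k hk
    have hk' := (Finset.mem_filter.1 hk).2
    exact ratio_nonneg (B_ne hk'.2) hk'.1
  · intro k hk
    have hk' := (Finset.mem_filter.1 hk).2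
    exact (le_abs_self _).trans (ratio_le (B_ne hk'.2) hk'.2)
  · intro k hk
    have hk' := h3 k (Finset.mem_filter.1 hk).2
    exact ratio_nonpos (A_ne hk'.2) (by have := hk'.1; rw [mul_comm] at this; exact this)
  · intro k hk
    have hk' := h3 k (Finset.mem_filter.1 hk).2
    exact (neg_le_abs _).trans (ratio_le (A_ne hk'.2) hk'.2)
  · intro x y hx hx' hy hy'
    obtain ⟨i, rfl⟩ := Int.eq_ofNat_of_zero_le hx
    obtain ⟨j, rfl⟩ := Int.eq_ofNat_of_zero_le hy
    obtain ⟨k, hk⟩ := hcov ⟨i, by exact_mod_cast hx'⟩ ⟨j, by exact_mod_cast hy'⟩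
    by_cases h0 : InOctant 0 (l k)
    · left
      exact ⟨k, Finset.mem_filter.2 ⟨Finset.mem_univ _, h0⟩, by simpa using cell0 h0 _ _ hk⟩
    · right
      exact ⟨k, Finset.mem_filter.2 ⟨Finset.mem_univ _, h0⟩, by simpa using cell3 (h3 k h0) _ _ hk⟩

/-- octants `1` and `2` -/
lemma case12 (h : ∀ k, InOctant 1 (l k) ∨ InOctant 2 (l k)) : (n : ℤ) - 1 ≤ m := by
  classical
  rw [← split_card hn l hcov (fun k => InOctant 1 (l k))]
  have h3 : ∀ k, ¬ InOctant 1 (l k) → InOctant 2 (l k) := fun k hk => (h k).resolve_left hk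
  refine core_perp (n : ℤ) (by exact_mod_cast hn) _ _ (fun k => (l k).B / (l k).A)
    (fun k => cst n (l k) / (l k).A) (fun k => -((l k).A / (l k).B))
    (fun k => cst n (l k) / (l k).B) ?_ ?_ ?_ ?_ ?_
  · intro k hk
    have hk' := (Finset.mem_filter.1 hk).2
    exact ratio_nonneg (A_ne hk'.2) (by have := hk'.1; rw [mul_comm] at this; exact this)
  · intro k hk
    have hk' := (Finset.mem_filter.1 hk).2
    exact (le_abs_self _).trans (ratio_le (A_ne hk'.2) hk'.2)
  · intro k hk
    have hk' := h3 k (Finset.mem_filter.1 hk).2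
    exact ratio_nonpos (B_ne hk'.2) hk'.1
  · intro k hk
    have hk' := h3 k (Finset.mem_filter.1 hk).2
    exact (neg_le_abs _).trans (ratio_le (B_ne hk'.2) hk'.2)
  · intro y x hy hy' hx hx'
    obtain ⟨i, rfl⟩ := Int.eq_ofNat_of_zero_le hx
    obtain ⟨j, rfl⟩ := Int.eq_ofNat_of_zero_le hy
    obtain ⟨k, hk⟩ := hcov ⟨i, by exact_mod_cast hx'⟩ ⟨j, by exact_mod_cast hy'⟩
    by_cases h0 : InOctant 1 (l k)
    · left
      exact ⟨k, Finset.mem_filter.2 ⟨Finset.mem_univ _, h0⟩, by simpa using cell1 h0 _ _ hk⟩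
    · right
      exact ⟨k, Finset.mem_filter.2 ⟨Finset.mem_univ _, h0⟩, by simpa using cell2 (h3 k h0) _ _ hk⟩

/-- octants `0` and `2` -/
lemma case02 (h : ∀ k, InOctant 0 (l k) ∨ InOctant 2 (l k)) : (n : ℤ) ≤ m := by
  classical
  rw [← split_card hn l hcov (fun k => InOctant 0 (l k))]
  have h3 : ∀ k, ¬ InOctant 0 (l k) → InOctant 2 (l k) := fun k hk => (h k).resolve_left hk
  refine core_shallow (n : ℤ) (by exact_mod_cast hn) _ _ (fun k => (l k).A / (l k).B)
    (fun k => cst n (l k) / (l k).B) (fun k => -((l k).A / (l k).B))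
    (fun k => cst n (l k) / (l k).B) ?_ ?_ ?_ ?_ ?_
  · intro k hk
    have hk' := (Finset.mem_filter.1 hk).2
    exact ratio_nonneg (B_ne hk'.2) hk'.1
  · intro k hk
    have hk' := (Finset.mem_filter.1 hk).2
    exact (le_abs_self _).trans (ratio_le (B_ne hk'.2) hk'.2)
  · intro k hk
    have hk' := h3 k (Finset.mem_filter.1 hk).2
    exact ratio_nonpos (B_ne hk'.2) hk'.1
  · intro k hk
    have hk' := h3 k (Finset.mem_filter.1 hk).2
    exact (neg_le_abs _).trans (ratio_le (B_ne hk'.2) hk'.2)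
  · intro x y hx hx' hy hy'
    obtain ⟨i, rfl⟩ := Int.eq_ofNat_of_zero_le hx
    obtain ⟨j, rfl⟩ := Int.eq_ofNat_of_zero_le hy
    obtain ⟨k, hk⟩ := hcov ⟨i, by exact_mod_cast hx'⟩ ⟨j, by exact_mod_cast hy'⟩
    by_cases h0 : InOctant 0 (l k)
    · left
      exact ⟨k, Finset.mem_filter.2 ⟨Finset.mem_univ _, h0⟩, by simpa using cell0 h0 _ _ hk⟩
    · right
      exact ⟨k, Finset.mem_filter.2 ⟨Finset.mem_univ _, h0⟩, by simpa using cell2 (h3 k h0) _ _ hk⟩

/-- octants `1` and `3` -/
lemma case13 (h : ∀ k, InOctant 1 (l k) ∨ InOctant 3 (l k)) : (n : ℤ) ≤ m := by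
  classical
  rw [← split_card hn l hcov (fun k => InOctant 1 (l k))]
  have h3 : ∀ k, ¬ InOctant 1 (l k) → InOctant 3 (l k) := fun k hk => (h k).resolve_left hk
  refine core_shallow (n : ℤ) (by exact_mod_cast hn) _ _ (fun k => (l k).B / (l k).A)
    (fun k => cst n (l k) / (l k).A) (fun k => -((l k).B / (l k).A))
    (fun k => cst n (l k) / (l k).A) ?_ ?_ ?_ ?_ ?_
  · intro k hk
    have hk' := (Finset.mem_filter.1 hk).2
    exact ratio_nonneg (A_ne hk'.2) (by have := hk'.1; rw [mul_comm] at this; exact this)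
  · intro k hk
    have hk' := (Finset.mem_filter.1 hk).2
    exact (le_abs_self _).trans (ratio_le (A_ne hk'.2) hk'.2)
  · intro k hk
    have hk' := h3 k (Finset.mem_filter.1 hk).2
    exact ratio_nonpos (A_ne hk'.2) (by have := hk'.1; rw [mul_comm] at this; exact this)
  · intro k hk
    have hk' := h3 k (Finset.mem_filter.1 hk).2
    exact (neg_le_abs _).trans (ratio_le (A_ne hk'.2) hk'.2)
  · intro y x hy hy' hx hx'
    obtain ⟨i, rfl⟩ := Int.eq_ofNat_of_zero_le hx
    obtain ⟨j, rfl⟩ := Int.eq_ofNat_of_zero_le hy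
    obtain ⟨k, hk⟩ := hcov ⟨i, by exact_mod_cast hx'⟩ ⟨j, by exact_mod_cast hy'⟩
    by_cases h0 : InOctant 1 (l k)
    · left
      exact ⟨k, Finset.mem_filter.2 ⟨Finset.mem_univ _, h0⟩, by simpa using cell1 h0 _ _ hk⟩
    · right
      exact ⟨k, Finset.mem_filter.2 ⟨Finset.mem_univ _, h0⟩, by simpa using cell3 (h3 k h0) _ _ hk⟩

end

/-- If `m` lines pierce all cells of the `n × n` board and the directions of the lines all lie in
two of the four closed octants of directions, then `m ≥ n - 1`, and even `m ≥ n` unless the two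
octants are perpendicular (octants `0` and `3`, or octants `1` and `2`). -/
theorem result (n m : ℕ) (hn : 1 ≤ n) (l : Fin m → Line) (a b : Fin 4)
    (hdir : ∀ k, InOctant a (l k) ∨ InOctant b (l k))
    (hcov : ∀ i j : Fin n, ∃ k, Pierces n (l k) i j) :
    n ≤ m + 1 ∧ ((a : ℕ) + (b : ℕ) ≠ 3 → n ≤ m) := by
  have hn' : 0 < n := hn
  have fin : n ≤ m → n ≤ m + 1 ∧ ((a : ℕ) + (b : ℕ) ≠ 3 → n ≤ m) := fun h => ⟨by omega, fun _ => h⟩
  have c03 : (∀ k, InOctant 0 (l k) ∨ InOctant 3 (l k)) → n ≤ m + 1 := fun h => by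
    have := case03 hn' l hcov h
    omega
  have c12 : (∀ k, InOctant 1 (l k) ∨ InOctant 2 (l k)) → n ≤ m + 1 := fun h => by
    have := case12 hn' l hcov h
    omega
  have c02 : (∀ k, InOctant 0 (l k) ∨ InOctant 2 (l k)) → n ≤ m := fun h => by
    have := case02 hn' l hcov h
    omega
  have c13 : (∀ k, InOctant 1 (l k) ∨ InOctant 3 (l k)) → n ≤ m := fun h => by
    have := case13 hn' l hcov h
    omega
  have neg := neg_case hn' l hcov
  have pos := pos_case hn' l hcov
  have s0 : ∀ k, InOctant 0 (l k) → 0 ≤ (l k).A * (l k).B := fun k h => h.1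
  have s1 : ∀ k, InOctant 1 (l k) → 0 ≤ (l k).A * (l k).B := fun k h => h.1
  have s2 : ∀ k, InOctant 2 (l k) → (l k).A * (l k).B ≤ 0 := fun k h => h.1
  have s3 : ∀ k, InOctant 3 (l k) → (l k).A * (l k).B ≤ 0 := fun k h => h.1
  fin_cases a <;> fin_cases b
  · exact fin (neg (fun k => (hdir k).elim (s0 k) (s0 k)))
  · exact fin (neg (fun k => (hdir k).elim (s0 k) (s1 k)))
  · exact fin (c02 hdir)
  · exact ⟨c03 hdir, fun h => absurd rfl h⟩
  · exact fin (neg (fun k => (hdir k).elim (s1 k) (s0 k)))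
  · exact fin (neg (fun k => (hdir k).elim (s1 k) (s1 k)))
  · exact ⟨c12 hdir, fun h => absurd rfl h⟩
  · exact fin (c13 hdir)
  · exact fin (c02 (fun k => (hdir k).symm))
  · exact ⟨c12 (fun k => (hdir k).symm), fun h => absurd rfl h⟩
  · exact fin (pos (fun k => (hdir k).elim (s2 k) (s2 k)))
  · exact fin (pos (fun k => (hdir k).elim (s2 k) (s3 k)))
  · exact ⟨c03 (fun k => (hdir k).symm), fun h => absurd rfl h⟩
  · exact fin (c13 (fun k => (hdir k).symm))
  · exact fin (pos (fun k => (hdir k).elim (s3 k) (s2 k)))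
  · exact fin (pos (fun k => (hdir k).elim (s3 k) (s3 k)))

end Pool.Agent.Results.MP_999027_co.TwoOctants
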